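import Mathlib
import Pool.Agent.Helper16.BW.ALL
import Pool.Agent.Helper16.SQF.Hlp

/-!
Divisors in general position on a projective variety, and algebraic points of bounded degree.

`X` is an irreducible closed subvariety of dimension `n` of the projective space `P^N` over the number field
`k`. It is given by its homogeneous prime ideal `P`; the transcendence degree of `k[X_0, …, X_N] / P` is
`n + 1`. Points are given by homogeneous coordinates in the algebraic closure of `k`, one of which is `1`. `Pl`,
`nv`, `sn` (in `Pool/Agent/Helper64/Vojta/Places.lean`) are the places, the normalised absolute values and the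
maximum of the absolute values of the coordinates, `above` (in `OneSpace.lean`) the set of places above a place, `ldeg`
(in `Pool/Agent/Helper52/Vojta/BaseChange.lean`) the local degree.
-/

namespace Pool.Agent.Results.MP_71c16a_nt.BoundedDegree

open NumberField IntermediateField Pool.Agent.Helper64.Vojta
open Pool.Agent.Helper52.Vojta (ldeg)

universe u

section

variable {k : Type u} [Field k] [NumberField k] {N : ℕ}

/-- The field generated over `k` by the coordinates of the point. If one of them is `1`, this is the
residue field of the point. -/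
noncomputable def fld (x : Fin N → AlgebraicClosure k) : IntermediateField k (AlgebraicClosure k) :=
  adjoin k (Set.range x)

/-- It is a number field. -/
instance numberField_fld (x : Fin N → AlgebraicClosure k) : NumberField (fld x) := by
  have : FiniteDimensional k (fld x) :=
    finiteDimensional_adjoin fun x _ => Algebra.IsIntegral.isIntegral x
  have h0 : CharZero (fld x) := charZero_of_injective_algebraMap (algebraMap k (fld x)).injective
  have h1 : FiniteDimensional ℚ (fld x) := Module.Finite.trans k (fld x)
  exact { to_charZero := h0, to_finiteDimensional := h1 }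

/-- The degree of the point over `k`. -/
noncomputable def dg (x : Fin N → AlgebraicClosure k) : ℕ := Module.finrank k (fld x)

/-- The Galois closure of the residue field. -/
noncomputable def gal (x : Fin N → AlgebraicClosure k) : IntermediateField k (AlgebraicClosure k) :=
  normalClosure k (fld x) (AlgebraicClosure k)

/-- It is a number field. -/
instance numberField_gal (x : Fin N → AlgebraicClosure k) : NumberField (gal x) := by
  have h2 : FiniteDimensional k (fld x) :=
    finiteDimensional_adjoin fun x _ => Algebra.IsIntegral.isIntegral x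
  have h3 : FiniteDimensional k (gal x) := by
    unfold gal
    infer_instance
  have h0 : CharZero (gal x) := charZero_of_injective_algebraMap (algebraMap k (gal x)).injective
  have h1 : FiniteDimensional ℚ (gal x) := Module.Finite.trans k (gal x)
  exact { to_charZero := h0, to_finiteDimensional := h1 }

/-- The coordinates as elements of the residue field. -/
noncomputable def crd (x : Fin N → AlgebraicClosure k) : Fin N → fld x :=
  fun i => ⟨x i, subset_adjoin k _ (Set.mem_range_self i)⟩

/-- Logarithmic height, relative to `k`; `Height.logHeight` is Mathlib's height relative to the field of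
the coordinates. -/
noncomputable def hgt (x : Fin N → AlgebraicClosure k) : ℝ := Height.logHeight (crd x) / dg x

/-- The largest absolute value at `w` of a coefficient of `g`. -/
noncomputable def cn {L : Type u} [Field L] [NumberField L] [Algebra k L] (g : MvPolynomial (Fin N) k) (w : Pl L) : ℝ :=
  ⨆ m : g.support, nv w (algebraMap k L (g.coeff m))

/-- Logarithmic height of the family of the coefficients of `g`, relative to `k`. -/
noncomputable def hform (g : MvPolynomial (Fin N) k) : ℝ := Height.logHeight fun m : g.support => g.coeff m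

/-- The contribution of the place `w` of the residue field to the Weil function, relative to `k`, of the section
`g = 0`, where `g` is a form of degree `d`: `log (|x|_w ^ d |g|_w / |g(x)|_w)`, divided by the degree of `x`; `|g|_w` is
the largest absolute value of a coefficient. -/
noncomputable def lamW (d : ℕ) (g : MvPolynomial (Fin N) k) (x : Fin N → AlgebraicClosure k) (w : Pl (fld x)) : ℝ :=
  (d * Real.log (sn w (crd x)) + Real.log (cn g w) - Real.log (nv w (MvPolynomial.aeval (crd x) g))) / dg x

/-- For forms `g i` of degrees `d i`: the sum of the `λ_w(g i = 0, x) / d i`, `i ∈ J`. -/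
noncomputable def proxW {q : ℕ} (d : Fin q → ℕ) (g : Fin q → MvPolynomial (Fin N) k) (J : Finset (Fin q))
    (x : Fin N → AlgebraicClosure k) (w : Pl (fld x)) : ℝ :=
  ∑ i ∈ J, lamW (d i) (g i) x w / d i

/-- The sum of the `proxW` for the places of the residue field above the place `ν` of `k`. The set `J` may depend on
the place. -/
noncomputable def prox {q : ℕ} (d : Fin q → ℕ) (g : Fin q → MvPolynomial (Fin N) k)
    (x : Fin N → AlgebraicClosure k) (J : Pl (fld x) → Finset (Fin q)) (ν : Pl k) : ℝ :=
  ∑ w ∈ above (fld x) ν, proxW d g (J w) x w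

/-- For a place `V` above `ν` of the Galois closure, take the restrictions of the `V ∘ σ` to the residue field, `σ` in the Galois
group. This is the number of different families which one gets for the `V` above `ν`. -/
noncomputable def gnum (x : Fin N → AlgebraicClosure k) (ν : Pl k) : ℕ :=
  Nat.card (Set.range fun (V : above (gal x) ν) (σ : gal x ≃ₐ[k] gal x) (z : fld x) =>
    nv V.1 (σ (inclusion (le_normalClosure (fld x)) z)))

/-- `F` is the top of a tower `k = E 0 ≤ E 1 ≤ … ≤ E s = F` of Galois extensions: the automorphisms over `E i` map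
`E (i + 1)` into itself. -/
def IsTower (F : IntermediateField k (AlgebraicClosure k)) : Prop :=
  ∃ (s : ℕ) (E : Fin (s + 1) → IntermediateField k (AlgebraicClosure k)), E 0 = ⊥ ∧ E (Fin.last s) = F ∧
    ∀ i : Fin s, E i.castSucc ≤ E i.succ ∧ ∀ σ : AlgebraicClosure k ≃ₐ[k] AlgebraicClosure k,
      (∀ y ∈ E i.castSucc, σ y = y) → ∀ y ∈ E i.succ, σ y ∈ E i.succ

/-- The residue field of `x` is contained in the top, of degree at most `r` over `k`, of a tower of Galois
extensions. For `r = 2` these are the points of degree at most two. -/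
def InTower (r : ℕ) (x : Fin N → AlgebraicClosure k) : Prop :=
  ∃ F : IntermediateField k (AlgebraicClosure k), IsTower F ∧ fld x ≤ F ∧ FiniteDimensional k F ∧
    Module.finrank k F ≤ r

/-- The constant `(n + 1) / (1 - n (s - 1) (1 - (1 - 1 / s) ^ (1 / n)))`, `s ≥ 1`. -/
noncomputable def cst (n : ℕ) (s : ℝ) : ℝ := (n + 1) / (1 - n * (s - 1) * (1 - (1 - 1 / s) ^ (1 / (n : ℝ))))

/-- `x` is a point of the variety of `P` (one of its coordinates is `1`). -/
def IsPoint (P : Ideal (MvPolynomial (Fin N) k)) (x : Fin N → AlgebraicClosure k) : Prop :=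
  (∃ j, x j = 1) ∧ ∀ f ∈ P, MvPolynomial.aeval x f = 0

/-- Any `n + 1` of the sections `g i = 0`, `i ∈ J`, of the variety of `P` have no common point. -/
def GenPos (n : ℕ) (P : Ideal (MvPolynomial (Fin N) k)) {q : ℕ} (g : Fin q → MvPolynomial (Fin N) k)
    (J : Finset (Fin q)) : Prop :=
  ∀ I ⊆ J, I.card = n + 1 → ∀ x, IsPoint P x → ∃ i ∈ I, MvPolynomial.aeval x (g i) ≠ 0

end

/-- Let `n` be the dimension of `X`, `d 1, …, d q ≥ 1`, `r ≥ 1` and `ε > 0`. There are an `M` and for all forms
`g = (g 1, …, g q)` of degrees `d i` over `k` a form `Q g` over `k` of degree at most `M` which does not vanish on `X`, such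
that for all finite sets `S` of places of `k` there is a `C` with the following property. Let `D_i` be the section `g i = 0`
of `X` and `x` a point of `X` of degree `deg x` at most `r` over `k`. For every place `w` of the residue field above `S` let
`J w ⊆ {1, …, q}` be a set with more than `n` elements such that any `n + 1` of the `D_i`, `i ∈ J w`, have no common point. Let
`x` be outside the `D_i`, `i ∈ J w`, and outside `Q g = 0`. Put `λ_w = ∑_{i ∈ J w} λ_w(D_i,x) / d_i`, where `λ_w(D_i,x)` is the
contribution of the place `w` to the Weil function of `D_i`, `λ_ν = ∑_{w ∣ ν} λ_w`, and `h(D)` for the sum of the heights of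
the `g i`.

1. `∑_{ν ∈ S} λ_ν ≤ (cst(n, r) + ε) h(x) + C (1 + h(D))` for all these `x`.
2. `∑_{ν ∈ S} λ_ν ≤ (r (n + 1) + ε) h(x) + C (1 + h(D))` if the residue field is in a tower of Galois extensions of degree
at most `r`.
3. `∑_{ν ∈ S} max (∑_{w ∣ ν} λ_w / cst(n, deg x / n_w), λ_{w(ν)} / (deg x (n + 1)), λ_ν / (gnum(x,ν) (n + 1))) ≤
(1 + ε) h(x) + C (1 + h(D))` for every choice of places `w(ν)` of the residue field above the places `ν`; `n_w` is the local
degree.

`M` does not depend on the `g i`, `C` depends neither on the `g i` nor on `x` and the `J w`, and `Q g` depends neither on `S`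
nor on `x` and the `J w`. -/
theorem result {k : Type u} [Field k] [NumberField k] (N n q r : ℕ) (hr : 0 < r)
    (P : Ideal (MvPolynomial (Fin (N + 1)) k)) [P.IsPrime]
    (hhom : ∀ f ∈ P, ∀ m, MvPolynomial.homogeneousComponent m f ∈ P)
    (hP : Algebra.trdeg k (MvPolynomial (Fin (N + 1)) k ⧸ P) = n + 1)
    (d : Fin q → ℕ) (hd : ∀ i, 0 < d i) (ε : ℝ) (hε : 0 < ε) :
    ∃ (M : ℕ) (Q : (Fin q → MvPolynomial (Fin (N + 1)) k) → MvPolynomial (Fin (N + 1)) k),
      (∀ g, Q g ∉ P ∧ ∃ e ≤ M, (Q g).IsHomogeneous e) ∧
      ∀ S : Finset (Pl k), ∃ C : ℝ, ∀ g : Fin q → MvPolynomial (Fin (N + 1)) k, (∀ i, (g i).IsHomogeneous (d i)) →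
      ∀ x : Fin (N + 1) → AlgebraicClosure k, IsPoint P x → dg x ≤ r →
      ∀ J : Pl (fld x) → Finset (Fin q), (∀ ν ∈ S, ∀ w ∈ above (fld x) ν, n < (J w).card ∧ GenPos n P g (J w)) →
        (∀ ν ∈ S, ∀ w ∈ above (fld x) ν, ∀ i ∈ J w, MvPolynomial.aeval x (g i) ≠ 0) → MvPolynomial.aeval x (Q g) ≠ 0 →
        (∑ ν ∈ S, prox d g x J ν ≤ (cst n r + ε) * hgt x + C * (1 + ∑ i, hform (g i))) ∧
        (InTower r x → ∑ ν ∈ S, prox d g x J ν ≤ (r * (n + 1) + ε) * hgt x + C * (1 + ∑ i, hform (g i))) ∧
        (∀ w : Pl k → Pl (fld x), (∀ ν, w ν ∈ above (fld x) ν) →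
          ∑ ν ∈ S, max (∑ w ∈ above (fld x) ν, proxW d g (J w) x w / cst n (dg x / ldeg ν w))
            (max (proxW d g (J (w ν)) x (w ν) / (dg x * (n + 1)))
              (prox d g x J ν / (gnum x ν * (n + 1)))) ≤ (1 + ε) * hgt x + C * (1 + ∑ i, hform (g i))) := by
  obtain ⟨M, Q, hQ, h⟩ := Pool.Agent.SQ.res_all N n q r hr P hhom hP d hd ε hε
  refine ⟨M, Q, hQ, fun S => ?_⟩
  obtain ⟨C, hC⟩ := h S
  refine ⟨C, fun g hg x hx hdr J hJ hgx hQx => ?_⟩
  obtain ⟨h0, h2, h1⟩ := hC g hg x hx.1 hx.2 hdr J hJ hgx hQx
  refine ⟨?_, h2, fun w hw => ?_⟩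
  · have h3 : cst n r = 1 / Pool.Agent.SQ.cnq n r := by
      unfold cst Pool.Agent.SQ.cnq
      rw [one_div_div]
    rw [h3]
    exact h0
  · refine le_trans (le_of_eq ?_) (h1 w hw)
    refine Finset.sum_congr rfl fun ν _ => ?_
    have h3 : ∑ w ∈ above (fld x) ν, proxW d g (J w) x w / cst n (dg x / ldeg ν w) =
        ∑ w ∈ above (fld x) ν, proxW d g (J w) x w * Pool.Agent.SQ.cnq n (dg x / ldeg ν w) := by
      refine Finset.sum_congr rfl fun w _ => ?_
      unfold cst Pool.Agent.SQ.cnq
      rw [div_div_eq_mul_div, mul_div_assoc]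
    rw [h3]
    rfl

end Pool.Agent.Results.MP_71c16a_nt.BoundedDegree
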