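import Mathlib
import Pool.Agent.Helper61.RV.FINX
import Pool.Agent.Helper99.RV.FIN2X

/-!
Closed subschemes of a projective variety which intersect properly, and algebraic points of bounded degree.

`X` is an irreducible closed subvariety of the projective space `P^N` over the number field `k`. It is given by its
homogeneous prime ideal `P`. Points are given by homogeneous coordinates in the algebraic closure of `k`, one of which
is `1`. `Pl`, `nv`, `sn` (in `Pool/Agent/Helper64/Vojta/Places.lean`) are the places, the normalised absolute values and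
the maximum of the absolute values of the coordinates, `above` (in `OneSpace.lean`) the set of places above a place, `ldeg`
(in `Pool/Agent/Helper52/Vojta/BaseChange.lean`) the local degree.
-/

namespace Pool.Agent.Results.MP_71c16a_nt.BoundedDegreeBeta

open NumberField IntermediateField Pool.Agent.Helper64.Vojta
open Pool.Agent.Helper52.Vojta (ldeg)

universe u

section

variable {k : Type u} [Field k] [NumberField k] {N : ℕ}

/-- The field generated over `k` by the coordinates of the point. If one of them is `1`, this is the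
residue field of the point. -/
noncomputable def fld (x : Fin N → AlgebraicClosure k) : IntermediateField k (AlgebraicClosure k) :=
  adjoin k (Set.range x)

/-- It is a number field. -/
instance numberField_fld (x : Fin N → AlgebraicClosure k) : NumberField (fld x) := by
  have : FiniteDimensional k (fld x) :=
    finiteDimensional_adjoin fun x _ => Algebra.IsIntegral.isIntegral x
  have h0 : CharZero (fld x) := charZero_of_injective_algebraMap (algebraMap k (fld x)).injective
  have h1 : FiniteDimensional ℚ (fld x) := Module.Finite.trans k (fld x)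
  exact { to_charZero := h0, to_finiteDimensional := h1 }

/-- The degree of the point over `k`. -/
noncomputable def dg (x : Fin N → AlgebraicClosure k) : ℕ := Module.finrank k (fld x)

/-- The Galois closure of the residue field. -/
noncomputable def gal (x : Fin N → AlgebraicClosure k) : IntermediateField k (AlgebraicClosure k) :=
  normalClosure k (fld x) (AlgebraicClosure k)

/-- It is a number field. -/
instance numberField_gal (x : Fin N → AlgebraicClosure k) : NumberField (gal x) := by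
  have h2 : FiniteDimensional k (fld x) :=
    finiteDimensional_adjoin fun x _ => Algebra.IsIntegral.isIntegral x
  have h3 : FiniteDimensional k (gal x) := by
    unfold gal
    infer_instance
  have h0 : CharZero (gal x) := charZero_of_injective_algebraMap (algebraMap k (gal x)).injective
  have h1 : FiniteDimensional ℚ (gal x) := Module.Finite.trans k (gal x)
  exact { to_charZero := h0, to_finiteDimensional := h1 }

/-- The coordinates as elements of the residue field. -/
noncomputable def crd (x : Fin N → AlgebraicClosure k) : Fin N → fld x :=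
  fun i => ⟨x i, subset_adjoin k _ (Set.mem_range_self i)⟩

/-- Logarithmic height, relative to `k`; `Height.logHeight` is Mathlib's height relative to the field of
the coordinates. -/
noncomputable def hgt (x : Fin N → AlgebraicClosure k) : ℝ := Height.logHeight (crd x) / dg x

/-- The contribution of the place `w` of the residue field to the Weil function, relative to `k`, of the subscheme
`g 1 = … = g e = 0`, where `g j` is a form of degree `d j`: `- log max_j (|g_j(x)|_w / |x|_w ^ d_j)`, divided by the degree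
of `x`. -/
noncomputable def lamW {e : ℕ} (d : Fin e → ℕ) (g : Fin e → MvPolynomial (Fin N) k) (x : Fin N → AlgebraicClosure k)
    (w : Pl (fld x)) : ℝ :=
  -Real.log (⨆ j, nv w (MvPolynomial.aeval (crd x) (g j)) / sn w (crd x) ^ d j) / dg x

/-- For subschemes `D_i` (`g i 1 = … = g i e = 0`) and real numbers `β i`: the sum of the `β i * λ_w(D_i, x)`, `i ∈ J`, where
`λ_w` is the contribution of the place `w` of the residue field. -/
noncomputable def proxW {q e : ℕ} (β : Fin q → ℝ) (d : Fin q → Fin e → ℕ) (g : Fin q → Fin e → MvPolynomial (Fin N) k)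
    (J : Finset (Fin q)) (x : Fin N → AlgebraicClosure k) (w : Pl (fld x)) : ℝ :=
  ∑ i ∈ J, β i * lamW (d i) (g i) x w

/-- For a place `V` above `ν` of the Galois closure, take the restrictions of the `V ∘ σ` to the residue field, `σ` in the Galois
group. This is the number of different families which one gets for the `V` above `ν`. -/
noncomputable def gnum (x : Fin N → AlgebraicClosure k) (ν : Pl k) : ℕ :=
  Nat.card (Set.range fun (V : above (gal x) ν) (σ : gal x ≃ₐ[k] gal x) (z : fld x) =>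
    nv V.1 (σ (inclusion (le_normalClosure (fld x)) z)))

/-- `F` is the top of a tower `k = E 0 ≤ E 1 ≤ … ≤ E s = F` of Galois extensions: the automorphisms over `E i` map
`E (i + 1)` into itself. -/
def IsTower (F : IntermediateField k (AlgebraicClosure k)) : Prop :=
  ∃ (s : ℕ) (E : Fin (s + 1) → IntermediateField k (AlgebraicClosure k)), E 0 = ⊥ ∧ E (Fin.last s) = F ∧
    ∀ i : Fin s, E i.castSucc ≤ E i.succ ∧ ∀ σ : AlgebraicClosure k ≃ₐ[k] AlgebraicClosure k,
      (∀ y ∈ E i.castSucc, σ y = y) → ∀ y ∈ E i.succ, σ y ∈ E i.succ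

/-- The residue field of `x` is contained in the top, of degree at most `r` over `k`, of a tower of Galois
extensions. For `r = 2` these are the points of degree at most two. -/
def InTower (r : ℕ) (x : Fin N → AlgebraicClosure k) : Prop :=
  ∃ F : IntermediateField k (AlgebraicClosure k), IsTower F ∧ fld x ≤ F ∧ FiniteDimensional k F ∧
    Module.finrank k F ≤ r

/-- `x` is a point of the variety of `P` (one of its coordinates is `1`). -/
def IsPoint (P : Ideal (MvPolynomial (Fin N) k)) (x : Fin N → AlgebraicClosure k) : Prop :=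
  (∃ j, x j = 1) ∧ ∀ f ∈ P, MvPolynomial.aeval x f = 0

/-- The ideal generated by the forms `g j`. -/
noncomputable def idl {e : ℕ} (g : Fin e → MvPolynomial (Fin N) k) : Ideal (MvPolynomial (Fin N) k) :=
  Ideal.span (Set.range g)

end

section

variable {k : Type u} [Field k] {N : ℕ}

/-- The saturation of an ideal of `k[X_0, …, X_N]` with respect to `(X_0, …, X_N)`. -/
def sat (I : Ideal (MvPolynomial (Fin (N + 1)) k)) : Ideal (MvPolynomial (Fin (N + 1)) k) where
  carrier := {p | ∃ M : ℕ, ∀ l, MvPolynomial.X l ^ M * p ∈ I}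
  zero_mem' := ⟨0, fun l => by simp⟩
  add_mem' := by
    rintro a b ⟨M, hM⟩ ⟨M', hM'⟩
    refine ⟨M + M', fun l => ?_⟩
    have e : (MvPolynomial.X l : MvPolynomial (Fin (N + 1)) k) ^ (M + M') * (a + b) =
        MvPolynomial.X l ^ M' * (MvPolynomial.X l ^ M * a) + MvPolynomial.X l ^ M * (MvPolynomial.X l ^ M' * b) := by ring
    rw [e]
    exact I.add_mem (I.mul_mem_left _ (hM l)) (I.mul_mem_left _ (hM' l))
  smul_mem' := by
    rintro c a ⟨M, hM⟩
    refine ⟨M, fun l => ?_⟩
    rw [smul_eq_mul, mul_left_comm]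
    exact I.mul_mem_left _ (hM l)

/-- The dimension of the space of the forms of degree `m` on the variety of `P` which vanish to the order `t` on the
subscheme of the ideal `J`: the forms of degree `m` in the saturation of `P + J ^ t`, modulo `P`. -/
noncomputable def ord (P J : Ideal (MvPolynomial (Fin (N + 1)) k)) (t m : ℕ) : ℕ :=
  Module.finrank k ((MvPolynomial.homogeneousSubmodule (Fin (N + 1)) k m ⊓
    (sat (P ⊔ J ^ t)).restrictScalars k).map (Ideal.Quotient.mkₐ k P).toLinearMap)

/-- The subschemes `D_i`, `i ∈ T`, of the variety of `P` given by the ideals `J i` intersect properly. Let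
`R = k[X_0, …, X_N] / P` and `p` a prime ideal of `R` which does not contain all the `X l`. Then (a) there are elements
`φ 1, …, φ c` of `R_p` such that `φ a` is not a zero divisor modulo the ideal of the `φ b`, `b ∈ U`, for all sets `U` of indices
and all `a ∉ U`, and the ideals `J i R_p`, `i ∈ T`, are generated by disjoint subfamilies of the `φ a` (those with `π a = i`), or
(b) at most one of the `D_i`, `i ∈ T`, passes through `p`. -/
def GenPos (P : Ideal (MvPolynomial (Fin (N + 1)) k)) {q : ℕ} (J : Fin q → Ideal (MvPolynomial (Fin (N + 1)) k))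
    (T : Finset (Fin q)) : Prop :=
  ∀ (p : Ideal (MvPolynomial (Fin (N + 1)) k ⧸ P)) [p.IsPrime], (∃ l, Ideal.Quotient.mk P (MvPolynomial.X l) ∉ p) →
    (∃ (c : ℕ) (φ : Fin c → Localization.AtPrime p) (π : Fin c → Fin q),
      (∀ i ∈ T, ((J i).map (Ideal.Quotient.mk P)).map (algebraMap _ (Localization.AtPrime p)) =
        Ideal.span (φ '' {a | π a = i})) ∧
      ∀ (a : Fin c) (U : Finset (Fin c)), a ∉ U → ∀ z, φ a * z ∈ Ideal.span (φ '' (U : Set (Fin c))) →
        z ∈ Ideal.span (φ '' (U : Set (Fin c)))) ∨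
    ∀ i ∈ T, ∀ j ∈ T, i ≠ j → ¬ ((J i).map (Ideal.Quotient.mk P) ≤ p ∧ (J j).map (Ideal.Quotient.mk P) ≤ p)

end

/-- Let `g i j` be forms over `k` of degrees `d i j`, `D_i` the subscheme `g i 1 = … = g i e = 0` of `X`, and `ord_i(t, m)` the
dimension of the space of the forms of degree `m` on `X` which vanish to the order `t` on `D_i`. For `0 < ρ ≤ 1` let `c_i(ρ)` be
positive real numbers with `c_i(ρ) ≤ sup_{θ ≥ 0} (liminf_m ∑_{1 ≤ t ≤ θ m} ord_i(t, m) / (m ord_i(0, m)) - (1 - ρ) θ)`. Let
`r ≥ 1` and `ε > 0`. There is a form `Q` over `k` which does not vanish on `X` such that for all finite sets `S` of places of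
`k` there is a `C` such that the following holds for all points `x` of `X` outside the `D_i` and outside `Q = 0` of degree
`deg x` at most `r` over `k`, and all choices of sets `J w ⊆ {1, …, q}`, for the places `w` of the residue field above `S`,
such that the `D_i`, `i ∈ J w`, intersect properly. Put `L_w(ρ) = ∑_{i ∈ J w} c_i(ρ) λ_w(D_i,x)` and `ρ_w = n_w / deg x`, where
`n_w` is the local degree.

1. `∑_{ν ∈ S} max (∑_{w ∣ ν} L_w(ρ_w) / ρ_w, L_{w(ν)}(1) / deg x, ∑_{w ∣ ν} L_w(1) / gnum(x,ν)) ≤ (1 + ε) h(x) + C` for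
every choice of places `w(ν)` of the residue field above the places `ν`.
2. `∑_{ν ∈ S} ∑_{w ∣ ν} L_w(1) ≤ (r + ε) h(x) + C` if the residue field is in a tower of Galois extensions of degree at
most `r`. -/
theorem result {k : Type u} [Field k] [NumberField k] (N q e r : ℕ) (hr : 0 < r)
    (P : Ideal (MvPolynomial (Fin (N + 1)) k)) [P.IsPrime]
    (hhom : ∀ f ∈ P, ∀ m, MvPolynomial.homogeneousComponent m f ∈ P)
    (d : Fin q → Fin e → ℕ) (g : Fin q → Fin e → MvPolynomial (Fin (N + 1)) k)
    (hg : ∀ i j, (g i j).IsHomogeneous (d i j)) (c : Fin q → ℝ → ℝ)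
    (hc : ∀ i ρ, 0 < ρ → ρ ≤ 1 → 0 < c i ρ ∧ ∀ δ : ℝ, 0 < δ → ∃ θ : ℝ, 0 ≤ θ ∧ ∃ m₀ : ℕ, ∀ m, m₀ ≤ m →
      (c i ρ + (1 - ρ) * θ - δ) * (m * ord P (idl (g i)) 0 m) ≤
        ∑ t ∈ Finset.range ⌊θ * m⌋₊, (ord P (idl (g i)) (t + 1) m : ℝ))
    (ε : ℝ) (hε : 0 < ε) :
    ∃ Q : MvPolynomial (Fin (N + 1)) k, Q ∉ P ∧ (∃ e, Q.IsHomogeneous e) ∧ ∀ S : Finset (Pl k), ∃ C : ℝ,
      ∀ x : Fin (N + 1) → AlgebraicClosure k, IsPoint P x → dg x ≤ r →
        (∀ i, ∃ j, MvPolynomial.aeval x (g i j) ≠ 0) → MvPolynomial.aeval x Q ≠ 0 →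
        ∀ J : Pl (fld x) → Finset (Fin q), (∀ ν ∈ S, ∀ w ∈ above (fld x) ν, GenPos P (fun i => idl (g i)) (J w)) →
        (∀ w : Pl k → Pl (fld x), (∀ ν, w ν ∈ above (fld x) ν) →
          ∑ ν ∈ S, max (∑ w ∈ above (fld x) ν, proxW (fun i => c i (ldeg ν w / dg x)) d g (J w) x w / (ldeg ν w / dg x))
            (max (proxW (fun i => c i 1) d g (J (w ν)) x (w ν) / dg x)
              ((∑ w ∈ above (fld x) ν, proxW (fun i => c i 1) d g (J w) x w) / gnum x ν)) ≤ (1 + ε) * hgt x + C) ∧
        (InTower r x → ∑ ν ∈ S, ∑ w ∈ above (fld x) ν, proxW (fun i => c i 1) d g (J w) x w ≤ (r + ε) * hgt x + C) := by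
  classical
  have h0 : ∀ i m, ord P (idl (g i)) 0 m = Pool.Agent.SQ.hilb P m := by
    intro i m
    have h1 : sat (P ⊔ idl (g i) ^ 0) = ⊤ := by
      rw [pow_zero, Ideal.one_eq_top, sup_top_eq]
      refine (Ideal.eq_top_iff_one _).2 ⟨0, fun l => ?_⟩
      trivial
    unfold ord Pool.Agent.SQ.hilb
    rw [h1]
    have h2 : MvPolynomial.homogeneousSubmodule (Fin (N + 1)) k m ⊓
        (⊤ : Ideal (MvPolynomial (Fin (N + 1)) k)).restrictScalars k =
        MvPolynomial.homogeneousSubmodule (Fin (N + 1)) k m := by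
      rw [Submodule.restrictScalars_top, inf_top_eq]
    rw [h2]
  have hc' : ∀ i ρ, 0 < ρ → ρ ≤ 1 → 0 < c i ρ ∧ ∀ δ : ℝ, 0 < δ → ∃ θ : ℝ, 0 ≤ θ ∧ ∀ᶠ m : ℕ in Filter.atTop,
      (c i ρ + (1 - ρ) * θ - δ) * (m * Pool.Agent.SQ.hilb P m) ≤ ∑ x ∈ Finset.range ⌊θ * m⌋₊,
        (Pool.Agent.SQ.RV.dimf P (Pool.Agent.SQ.RV.sat (P ⊔ Pool.Agent.SQ.RV.idl g i ^ (x + 1))) m : ℝ) := by
    intro i ρ hρ hρ1
    refine ⟨(hc i ρ hρ hρ1).1, fun δ hδ => ?_⟩
    obtain ⟨θ, hθ, m₀, h⟩ := (hc i ρ hρ hρ1).2 δ hδ
    refine ⟨θ, hθ, ?_⟩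
    filter_upwards [Filter.eventually_ge_atTop m₀] with m hm
    rw [← h0 i m]
    exact h m hm
  obtain ⟨Q₁, hQ₁, ⟨e₁, he₁⟩, h₁⟩ := Pool.Agent.SQ.RV.fin_rlx hr P hhom d g hg c hc' hε
  obtain ⟨Q₂, hQ₂, ⟨e₂, he₂⟩, h₂⟩ := Pool.Agent.SQ.RV.fin_rvx hr P hhom d g hg (fun i => c i 1)
    (fun i => (hc i 1 one_pos le_rfl).1) (fun i δ hδ => by
      obtain ⟨θ, -, h⟩ := (hc' i 1 one_pos le_rfl).2 δ hδ
      filter_upwards [h] with m hm
      refine ⟨⌊θ * m⌋₊, ?_⟩
      rwa [sub_self, zero_mul, add_zero] at hm) hε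
  refine ⟨Q₁ * Q₂, fun h => ?_, ⟨e₁ + e₂, he₁.mul he₂⟩, fun S => ?_⟩
  · rcases Ideal.IsPrime.mem_or_mem ‹P.IsPrime› h with h | h
    · exact hQ₁ h
    · exact hQ₂ h
  obtain ⟨C₁, h₁⟩ := h₁ S
  obtain ⟨C₂, h₂⟩ := h₂ S
  refine ⟨max C₁ C₂, fun x hx hdr hgx hQx J hJ => ?_⟩
  rw [map_mul] at hQx
  have hcrd : ∀ f : MvPolynomial (Fin (N + 1)) k, ((MvPolynomial.aeval (crd x) f : fld x) : AlgebraicClosure k) =
      MvPolynomial.aeval x f := fun f => (MvPolynomial.aeval_algebraMap_apply (AlgebraicClosure k) (crd x) f).symm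
  have hgx' : ∀ i, ∃ j, MvPolynomial.aeval (crd x) (g i j) ≠ 0 := fun i => by
    obtain ⟨j, hj⟩ := hgx i
    refine ⟨j, fun h0 => hj ?_⟩
    rw [← hcrd, h0]
    rfl
  -- the sets for all places
  obtain ⟨T, hT⟩ : ∃ T : Pl (fld x) → Finset (Fin q), T = fun w => if ∃ ν ∈ S, w ∈ above (fld x) ν then J w else ∅ := ⟨_, rfl⟩
  have hTJ : ∀ ν ∈ S, ∀ w ∈ above (fld x) ν, T w = J w := fun ν hν w hw => by
    rw [hT]
    exact if_pos ⟨ν, hν, hw⟩
  have hTg : ∀ w, Pool.Agent.SQ.RV.GenPos P (Pool.Agent.SQ.RV.idl g) (T w) := by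
    intro w
    rw [hT]
    by_cases h : ∃ ν ∈ S, w ∈ above (fld x) ν
    · obtain ⟨ν, hν, hw⟩ := h
      show Pool.Agent.SQ.RV.GenPos P (Pool.Agent.SQ.RV.idl g) (if ∃ ν ∈ S, w ∈ above (fld x) ν then J w else ∅)
      rw [if_pos ⟨ν, hν, hw⟩]
      exact hJ ν hν w hw
    · show Pool.Agent.SQ.RV.GenPos P (Pool.Agent.SQ.RV.idl g) (if ∃ ν ∈ S, w ∈ above (fld x) ν then J w else ∅)
      rw [if_neg h]
      intro p _ _
      exact Or.inr fun i hi => absurd hi (Finset.notMem_empty i)
  refine ⟨fun w hw => ?_, fun ht => ?_⟩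
  · have h3 := h₁ x hx.1 hx.2 hdr hgx' (left_ne_zero_of_mul hQx) T hTg w hw
    refine le_trans (le_of_eq ?_) (h3.trans (add_le_add le_rfl (le_max_left C₁ C₂)))
    refine Finset.sum_congr rfl fun ν hν => ?_
    refine congrArg₂ max (Finset.sum_congr rfl fun w hw => ?_) (congrArg₂ max ?_ ?_)
    · rw [hTJ ν hν w hw]
      unfold proxW
      rw [Finset.sum_div]
      refine Finset.sum_congr rfl fun i _ => ?_
      rw [div_div_eq_mul_div, mul_div_assoc, mul_right_comm]
      rfl
    · rw [hTJ ν hν (w ν) (hw ν)]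
      rfl
    · refine congrArg₂ (· / ·) (Finset.sum_congr rfl fun w hw => ?_) rfl
      rw [hTJ ν hν w hw]
      rfl
  · have h3 := h₂ x hx.1 hx.2 ht hgx' (right_ne_zero_of_mul hQx) T hTg
    refine le_trans (le_of_eq ?_) (h3.trans (add_le_add le_rfl (le_max_right C₁ C₂)))
    refine Finset.sum_congr rfl fun ν hν => Finset.sum_congr rfl fun w hw => ?_
    rw [hTJ ν hν w hw]
    rfl

end Pool.Agent.Results.MP_71c16a_nt.BoundedDegreeBeta
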