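import Mathlib
import Pool.Agent.Helper42.SQ.PHI
import Pool.Agent.Helper11.SH.SHARP6
import Pool.Agent.Helper42.SQ.SHARP3
import Pool.Agent.Helper64.AU.U1b
import Pool.Agent.Helper20.AU.FINPu
import Pool.Agent.Helper67.AU.FINTU

/-!
The subspace theorem for algebraic points of bounded degree: hyperplanes in general position in projective space.

Points are given by homogeneous coordinates in the algebraic closure of `k`, one of which is `1`. `D` is the
sum of the hyperplanes `ℓ i = 0`, where the `ℓ i` are linear forms with coefficients in `k`. `Pl`, `nv`, `sn`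
(in `Pool/Agent/Helper64/Vojta/Places.lean`) are the places, the normalised absolute values and the maximum of
the absolute values of the coordinates, `above` (in `OneSpace.lean`) the set of places above a place.
-/

namespace Pool.Agent.Results.MP_71c16a_nt.BoundedDegreePn

open NumberField IntermediateField Pool.Agent.Helper64.Vojta

universe u

section

variable {k : Type u} [Field k] [NumberField k] {N : ℕ}

/-- The field generated over `k` by the coordinates of the point. If one of them is `1`, this is the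
residue field of the point. -/
noncomputable def fld (x : Fin N → AlgebraicClosure k) : IntermediateField k (AlgebraicClosure k) :=
  adjoin k (Set.range x)

/-- It is a number field. -/
instance numberField_fld (x : Fin N → AlgebraicClosure k) : NumberField (fld x) := by
  have : FiniteDimensional k (fld x) :=
    finiteDimensional_adjoin fun x _ => Algebra.IsIntegral.isIntegral x
  have h0 : CharZero (fld x) := charZero_of_injective_algebraMap (algebraMap k (fld x)).injective
  have h1 : FiniteDimensional ℚ (fld x) := Module.Finite.trans k (fld x)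
  exact { to_charZero := h0, to_finiteDimensional := h1 }

/-- The degree of the point over `k`. -/
noncomputable def dg (x : Fin N → AlgebraicClosure k) : ℕ := Module.finrank k (fld x)

/-- `F` is the top of a tower `k = E 0 ≤ E 1 ≤ … ≤ E s = F` of Galois extensions: the automorphisms over `E i` map
`E (i + 1)` into itself. -/
def IsTower (F : IntermediateField k (AlgebraicClosure k)) : Prop :=
  ∃ (s : ℕ) (E : Fin (s + 1) → IntermediateField k (AlgebraicClosure k)), E 0 = ⊥ ∧ E (Fin.last s) = F ∧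
    ∀ i : Fin s, E i.castSucc ≤ E i.succ ∧ ∀ σ : AlgebraicClosure k ≃ₐ[k] AlgebraicClosure k,
      (∀ y ∈ E i.castSucc, σ y = y) → ∀ y ∈ E i.succ, σ y ∈ E i.succ

/-- The residue field of `x` is contained in the top, of degree at most `r` over `k`, of a tower of Galois
extensions. For `r = 2` these are the points of degree at most two. -/
def InTower (r : ℕ) (x : Fin N → AlgebraicClosure k) : Prop :=
  ∃ F : IntermediateField k (AlgebraicClosure k), IsTower F ∧ fld x ≤ F ∧ FiniteDimensional k F ∧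
    Module.finrank k F ≤ r

open Classical in
/-- The constant for the point `x` of degree at most `r`: it is `r (n + 1)` if the residue field is in a tower, and
`(n + 1) / (1 - n (r - 1) (1 - (1 - 1 / r) ^ (1 / n)))` otherwise. -/
noncomputable def cst (n r : ℕ) (x : Fin N → AlgebraicClosure k) : ℝ :=
  if InTower r x then r * (n + 1) else (n + 1) / (1 - n * (r - 1) * (1 - (1 - 1 / (r : ℝ)) ^ (1 / (n : ℝ))))

/-- The coordinates as elements of the residue field. -/
noncomputable def crd (x : Fin N → AlgebraicClosure k) : Fin N → fld x :=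
  fun i => ⟨x i, subset_adjoin k _ (Set.mem_range_self i)⟩

/-- The value of the linear form `ℓ` at the point. -/
noncomputable def val (ℓ : Fin N → k) (x : Fin N → AlgebraicClosure k) : fld x :=
  ∑ j, algebraMap k (fld x) (ℓ j) * crd x j

/-- Logarithmic height, relative to `k`; `Height.logHeight` is Mathlib's height relative to the field of
the coordinates. -/
noncomputable def hgt (x : Fin N → AlgebraicClosure k) : ℝ := Height.logHeight (crd x) / dg x

/-- The Weil function, relative to `k`, of the hyperplane `ℓ = 0` at the place `ν` of `k`: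
`log (|ℓ|_ν |x|_ν / |ℓ(x)|_ν)`, averaged over the places of the residue field above `ν`. -/
noncomputable def lam (ℓ : Fin N → k) (ν : Pl k) (x : Fin N → AlgebraicClosure k) : ℝ :=
  Real.log (sn ν ℓ) + (∑ w ∈ above (fld x) ν, (Real.log (sn w (crd x)) - Real.log (nv w (val ℓ x)))) / dg x

/-- `∑_{ν ∈ S} λ_D(x,ν)` for the divisor `D` which is the sum of the hyperplanes `ℓ i = 0`. -/
noncomputable def prox {q : ℕ} (S : Finset (Pl k)) (ℓ : Fin q → Fin N → k) (x : Fin N → AlgebraicClosure k) : ℝ :=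
  ∑ ν ∈ S, ∑ i, lam (ℓ i) ν x

/-- `x` is a point outside the hyperplanes `ℓ i = 0` (one of its coordinates is `1`). -/
def IsPoint {q : ℕ} (ℓ : Fin q → Fin N → k) (x : Fin N → AlgebraicClosure k) : Prop :=
  (∃ j, x j = 1) ∧ ∀ i, val (ℓ i) x ≠ 0

end

section

variable {k : Type u} [Field k] {n q : ℕ}

/-- Any `n + 1` (or fewer) of the forms are linearly independent. -/
def GenPos (ℓ : Fin q → Fin (n + 1) → k) : Prop :=
  ∀ I : Finset (Fin q), I.card ≤ n + 1 → LinearIndependent k fun i : I => ℓ i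

/-- For a linear subspace `Λ` of projective space, given by the space `N` of the linear forms which vanish on
it: the space of the linear forms which vanish on `Λ ∩ {ℓ j = 0 for j ∈ J}`. -/
def cut (ℓ : Fin q → Fin (n + 1) → k) (N : Submodule k (Fin (n + 1) → k)) (J : Finset (Fin q)) :
    Submodule k (Fin (n + 1) → k) :=
  N ⊔ Submodule.span k (ℓ '' (J : Set (Fin q)))

/-- The intersection of the spaces `cut ℓ N J`, `J` a set of indices `j < i`, which contain `ℓ i`. -/
def hull (ℓ : Fin q → Fin (n + 1) → k) (N : Submodule k (Fin (n + 1) → k)) (i : Fin q) :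
    Submodule k (Fin (n + 1) → k) :=
  ⨅ (J : Finset (Fin q)) (_ : (∀ j ∈ J, j < i) ∧ ℓ i ∈ cut ℓ N J), cut ℓ N J

/-- `Λ` is not in `D` and satisfies too many incidence conditions with respect to `D`: the sum of the
codimensions of the `hull ℓ N i` is greater than the dimension `p (n + 1 - p)`, `p = dim N`, of the Grassmannian. -/
def Bad (ℓ : Fin q → Fin (n + 1) → k) (N : Submodule k (Fin (n + 1) → k)) : Prop :=
  (∀ i, ℓ i ∉ N) ∧ Module.finrank k N * (n + 1 - Module.finrank k N) <
    ∑ i, (n + 1 - Module.finrank k (hull ℓ N i))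

end

/-- Galois points are in a tower. -/
theorem inTower_gal {k : Type u} [Field k] [NumberField k] {N r : ℕ} (x : Fin N → AlgebraicClosure k)
    (h : Module.finrank k (Pool.Agent.SQ.gal x) ≤ r) : InTower r x := by
  have h2 : FiniteDimensional k (Pool.Agent.SQ.gal x) := by
    have h1 : FiniteDimensional k (fld x) :=
      finiteDimensional_adjoin fun x _ => Algebra.IsIntegral.isIntegral x
    have h3 : FiniteDimensional k (Pool.Agent.Chart.fld x) := h1
    unfold Pool.Agent.SQ.gal
    infer_instance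
  refine ⟨Pool.Agent.SQ.gal x, ⟨1, ![⊥, Pool.Agent.SQ.gal x], rfl, rfl, fun i => ?_⟩, ?_, h2, h⟩
  · fin_cases i
    refine ⟨bot_le, fun σ _ y hy => ?_⟩
    have h1 : Normal k (Pool.Agent.SQ.gal x) := by
      unfold Pool.Agent.SQ.gal
      infer_instance
    exact (normal_iff_forall_map_le.1 h1 (σ : AlgebraicClosure k →ₐ[k] AlgebraicClosure k)) ⟨y, hy, rfl⟩
  · exact le_normalClosure _

section

variable {k : Type u} [Field k] [NumberField k] {n q : ℕ}

theorem prox_eq (S : Finset (Pl k)) (ℓ : Fin q → Fin (n + 1) → k) (x : Fin (n + 1) → AlgebraicClosure k) :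
    prox S ℓ x = ∑ ν ∈ S, ∑ i, Real.log (sn ν (ℓ i)) + ∑ ν ∈ S, ∑ i, Pool.Agent.Chart.lam (ℓ i) ν x := by
  rw [← Finset.sum_add_distrib]
  refine Finset.sum_congr rfl fun ν _ => ?_
  rw [← Finset.sum_add_distrib]
  rfl

end

/-- Let `n ≥ 1` and `q` be given. For `r ≥ 2` let `c(x) = cst n r x`.

1. There are a number `M` and a nonzero polynomial `Φ` over `ℚ` in the coefficients of `q` linear forms in `n + 1` variables
such that for every number field `k` the following is true. For all forms `ℓ 1, …, ℓ q` over `k` there is a list `A ℓ` of at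
most `M` subspaces, all of them `Bad`; if `Φ(ℓ) ≠ 0`, then `ℓ` is in general position, no subspace is `Bad` and `A ℓ` is
empty. For all `r ≥ 2`, all finite sets `S` of places of `k` and all `ε > 0` there is a `C` with
`∑_{ν ∈ S} λ_D(x,ν) ≤ (c(x) + ε) h(x) + C (1 + h(D))` for all `ℓ 1, …, ℓ q` in general position and all points `x` outside
`D` of degree at most `r` which are not zeros of a member of `A ℓ`.
2. If `r ≥ 2` and `q ≥ 2 n + 2 r - 2`, then for all linear forms `ℓ 1, …, ℓ q` in general position there are `S` and `C`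
such that `∑_{ν ∈ S} λ_D(x,ν) ≥ (2 n + 2 r - 2) h(x) - C` for points `x` outside `D` of degree at most `r` and of
unbounded height. For `r = 2` the constant is `r (n + 1)`.
3. For every `k` and `r ≥ 2` there are `r (n + 1)` linear forms over `k` in general position, `S` and `C` such that
`∑_{ν ∈ S} λ_D(x,ν) ≥ r (n + 1) h(x) - C` for points `x` outside `D` of degree at most `r`, of unbounded height, outside any
given finite set of hyperplanes; if `k` contains a primitive `r`-th root of unity, the `x` are in towers of degree at most `r`.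
As `r (n + 1)` is the number of the forms, the `x` are `S`-integral with respect to `D`, up to a bounded error. -/
theorem result (n q : ℕ) (hn : 1 ≤ n) :
    (∃ (M : ℕ) (Φ : MvPolynomial (Fin q × Fin (n + 1)) ℚ), Φ ≠ 0 ∧ ∀ (k : Type u) [Field k] [NumberField k],
      ∃ A : (Fin q → Fin (n + 1) → k) → Finset (Submodule k (Fin (n + 1) → k)),
        (∀ ℓ, (A ℓ).card ≤ M ∧ ∀ N ∈ A ℓ, Bad ℓ N) ∧
        (∀ ℓ : Fin q → Fin (n + 1) → k, MvPolynomial.aeval (fun p : Fin q × Fin (n + 1) => ℓ p.1 p.2) Φ ≠ 0 →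
          GenPos ℓ ∧ (∀ N, ¬ Bad ℓ N) ∧ A ℓ = ∅) ∧
        ∀ r : ℕ, 2 ≤ r → ∀ (S : Finset (Pl k)) (ε : ℝ), 0 < ε → ∃ C : ℝ, ∀ ℓ : Fin q → Fin (n + 1) → k, GenPos ℓ →
          ∀ x, IsPoint ℓ x → dg x ≤ r → (∀ N ∈ A ℓ, ∃ m ∈ N, val m x ≠ 0) →
            prox S ℓ x ≤ (cst n r x + ε) * hgt x + C * (1 + ∑ i, Height.logHeight (ℓ i))) ∧
    ∀ (k : Type u) [Field k] [NumberField k],
      (∀ ℓ : Fin q → Fin (n + 1) → k, GenPos ℓ → ∀ r : ℕ, 2 ≤ r → 2 * n + 2 * r - 2 ≤ q →
        ∃ (S : Finset (Pl k)) (C : ℝ), ∀ B : ℝ, ∃ x, IsPoint ℓ x ∧ dg x ≤ r ∧ B ≤ hgt x ∧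
          (2 * n + 2 * r - 2) * hgt x - C ≤ prox S ℓ x) ∧
      ∀ r : ℕ, 2 ≤ r → ∃ (ℓ : Fin (r * (n + 1)) → Fin (n + 1) → k) (S : Finset (Pl k)) (C : ℝ), GenPos ℓ ∧
        ∀ (A : Finset (Fin (n + 1) → k)) (B : ℝ), (∀ m ∈ A, m ≠ 0) → ∃ x, IsPoint ℓ x ∧ dg x ≤ r ∧
          ((∃ ζ : k, IsPrimitiveRoot ζ r) → InTower r x) ∧ (∀ m ∈ A, val m x ≠ 0) ∧ B ≤ hgt x ∧
            r * (n + 1) * hgt x - C ≤ prox S ℓ x := by
  classical
  refine ⟨?_, fun k _ _ => ⟨fun ℓ hℓ r hr hq => ?_, fun r hr => ?_⟩⟩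
  · obtain ⟨M, hM⟩ := Pool.Agent.SQ.exists_cpln.{u} n q
    obtain ⟨Φ, hΦ, h⟩ := Pool.Agent.SQ.phi.{u} n q
    refine ⟨M, Φ, hΦ, fun k _ _ => ?_⟩
    choose T hT hTn using fun ℓ : Fin q → Fin (n + 1) → k => hM k ℓ
    refine ⟨fun ℓ => (T ℓ).filter fun N => Bad ℓ N, fun ℓ => ⟨?_, ?_⟩, fun ℓ h1 => ?_, fun r hr S ε hε => ?_⟩
    · exact (Finset.card_filter_le _ _).trans (hT ℓ)
    · exact fun N hN => (Finset.mem_filter.1 hN).2
    · have h2 : GenPos ℓ ∧ ∀ N, ¬ Bad ℓ N := h k ℓ h1
      exact ⟨h2.1, h2.2, Finset.filter_eq_empty_iff.2 fun N _ => h2.2 N⟩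
    · obtain ⟨C, hC⟩ := Pool.Agent.SQ.fin_t_u n q hr M k T hT hTn S hε
      obtain ⟨C₂, hC₂⟩ := Pool.Agent.SQ.fin_pn_u n q hr M k T hT hTn S hε
      refine ⟨max C C₂, fun ℓ hℓ x hx hd hA => ?_⟩
      have h3 : 0 ≤ 1 + ∑ i, Height.logHeight (ℓ i) :=
        add_nonneg zero_le_one (Finset.sum_nonneg fun i _ => Height.logHeight_nonneg _)
      have hA' : ∀ N ∈ T ℓ, Bad ℓ N → ∃ m ∈ N, val m x ≠ 0 := fun N hN hb => hA N (Finset.mem_filter.2 ⟨hN, hb⟩)
      rw [prox_eq, cst]
      split_ifs with ht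
      · have h2 := hC ℓ hℓ x hx.1 ht hx.2 hA'
        simp only [Finset.sum_add_distrib] at h2
        exact h2.trans (add_le_add le_rfl (mul_le_mul_of_nonneg_right (le_max_left _ _) h3))
      · have h2 := hC₂ ℓ hℓ x hx.1 hd hx.2 hA'
        simp only [Finset.sum_add_distrib] at h2
        rw [Pool.Agent.SQ.cnr, one_div_div] at h2
        exact h2.trans (add_le_add le_rfl (mul_le_mul_of_nonneg_right (le_max_right _ _) h3))
  · obtain ⟨S, C, h⟩ := Pool.Agent.SQ.sharp3 hn hr hq ℓ hℓ
    refine ⟨S, C - ∑ ν ∈ S, ∑ i, Real.log (sn ν (ℓ i)), fun B => ?_⟩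
    obtain ⟨x, h1, h2, h3, h4, h5⟩ := h B
    refine ⟨x, ⟨h1, h3⟩, h2, h4, ?_⟩
    rw [prox_eq]
    change (2 * n + 2 * r - 2) * hgt x - C ≤ _ at h5
    linarith
  · obtain ⟨ℓ, S, C, hℓ, h⟩ := Pool.Agent.SQ.sharp6 (k := k) (n := n) (r := r) hn (by omega)
    refine ⟨ℓ, S, C - ∑ ν ∈ S, ∑ i, Real.log (sn ν (ℓ i)), hℓ, fun A B hA => ?_⟩
    obtain ⟨x, h1, h2, h3, h4, h5, h6, h7⟩ := h A B hA
    refine ⟨x, ⟨h1, h4⟩, h2, fun hζ => inTower_gal x (h3 hζ), h5, h6, ?_⟩
    rw [prox_eq]
    change (r * (n + 1) : ℝ) * hgt x - C ≤ _ at h7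
    linarith

end Pool.Agent.Results.MP_71c16a_nt.BoundedDegreePn
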