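import Mathlib
import Pool.Agent.Helper6.TRI.OutS
import Pool.Agent.Helper6.TRI.Low
import Pool.Agent.Helper6.TRI.Lin
import Pool.Agent.Helper64.UD.Final

/-!
Vojta's inequality with a weaker constant for all points of bounded degree on the complement of generic sections of a
variety, with moving sections; the number of the sections is best possible in the plane.

`X` is a geometrically integral closed subvariety of dimension `n` of the projective space `P^N` over a number field `k₀`,
given by its homogeneous ideal `I`. `k` is a number field which contains `k₀`, `D` is the sum of `q` sections `f i = 0` of `X`,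
where the forms `f i` of degree `d` have coefficients in `k`. Points are given by homogeneous coordinates in the algebraic closure of `k`, one of
which is `1`. `Pl`, `nv`, `sn` (in `Pool/Agent/Helper64/Vojta/Places.lean`) are the places, the normalised absolute values and
the maximum of the absolute values of the coordinates, `above` (in `OneSpace.lean`) the set of places above a place. Heights
and Weil functions are relative to `k`.
-/

namespace Pool.Agent.Results.MP_71c16a_nt.SectionsThreshold

open NumberField IntermediateField MvPolynomial Module Pool.Agent.Helper64.Vojta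

universe u

section

variable {k : Type u} [Field k] [NumberField k] {N : ℕ}

/-- The field generated over `k` by the coordinates of the point. If one of them is `1`, this is the
residue field of the point. -/
noncomputable def fld (x : Fin N → AlgebraicClosure k) : IntermediateField k (AlgebraicClosure k) :=
  adjoin k (Set.range x)

/-- It is a number field. -/
instance numberField_fld (x : Fin N → AlgebraicClosure k) : NumberField (fld x) := by
  have : FiniteDimensional k (fld x) :=
    finiteDimensional_adjoin fun x _ => Algebra.IsIntegral.isIntegral x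
  have h0 : CharZero (fld x) := charZero_of_injective_algebraMap (algebraMap k (fld x)).injective
  have h1 : FiniteDimensional ℚ (fld x) := Module.Finite.trans k (fld x)
  exact { to_charZero := h0, to_finiteDimensional := h1 }

/-- The degree of the point over `k`. -/
noncomputable def dg (x : Fin N → AlgebraicClosure k) : ℕ := Module.finrank k (fld x)

/-- The coordinates as elements of the residue field. -/
noncomputable def crd (x : Fin N → AlgebraicClosure k) : Fin N → fld x :=
  fun i => ⟨x i, subset_adjoin k _ (Set.mem_range_self i)⟩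

/-- Logarithmic height, relative to `k`; `Height.logHeight` is Mathlib's height relative to the field of
the coordinates. -/
noncomputable def hgt (x : Fin N → AlgebraicClosure k) : ℝ := Height.logHeight (crd x) / dg x

/-- The Weil function, relative to `k`, of the divisor `f = 0` at the place `ν` of `k`, for a form `f` of degree `d`
with the coefficients `c`: `log (|c|_ν |x|_ν ^ d / |f(x)|_ν)`, averaged over the places of the residue field above `ν`. -/
noncomputable def lam {ι : Type} (d : ℕ) (c : ι → k) (f : MvPolynomial (Fin N) k) (ν : Pl k)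
    (x : Fin N → AlgebraicClosure k) : ℝ :=
  Real.log (⨆ s, nv ν (c s)) +
    (∑ w ∈ above (fld x) ν, (d * Real.log (sn w (crd x)) - Real.log (nv w (aeval (crd x) f)))) / dg x

end

/-- The homogeneous ideal of a geometrically integral closed subvariety of dimension `n` of `P^N`. -/
structure Variety {k₀ : Type u} [Field k₀] {N : ℕ} (n : ℕ) (I : Ideal (MvPolynomial (Fin (N + 1)) k₀)) : Prop where
  hom : ∀ f ∈ I, ∀ m, homogeneousComponent m f ∈ I
  prime : I.IsPrime
  dim : Algebra.trdeg k₀ (MvPolynomial (Fin (N + 1)) k₀ ⧸ I) = n + 1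
  geo : ∀ (K : Type u) [Field K] [Algebra k₀ K], (I.map (MvPolynomial.map (algebraMap k₀ K))).IsPrime

/-- A surface is a plane: `N - 2` independent linear forms are zero on it. -/
def Plane {k₀ : Type u} [Field k₀] {N : ℕ} (I : Ideal (MvPolynomial (Fin (N + 1)) k₀)) : Prop :=
  finrank k₀ ↥((I.restrictScalars k₀) ⊓ homogeneousSubmodule (Fin (N + 1)) k₀ 1) + 2 = N

/-- The points of `X` of degree at most `r` over `k`, outside `D = ∑ {f i = 0}`. -/
def points {k₀ k : Type u} [Field k₀] [Field k] [NumberField k] [Algebra k₀ k] {N q : ℕ} (I : Ideal (MvPolynomial (Fin (N + 1)) k₀))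
    (r : ℕ) (f : Fin q → MvPolynomial (Fin (N + 1)) k) : Set (Fin (N + 1) → AlgebraicClosure k) :=
  {x | (∃ j, x j = 1) ∧ (∀ g ∈ I, aeval x g = 0) ∧ dg x ≤ r ∧ ∀ i, aeval x (f i) ≠ 0}

/-- The form of degree `d` with the coefficients `c`, indexed by the multisets of `d` indices. -/
noncomputable def form {k : Type u} [Field k] {N d : ℕ} (c : Sym (Fin N) d → k) : MvPolynomial (Fin N) k :=
  ∑ s, C (c s) * ((s : Multiset (Fin N)).map X).prod

/-- The linear form with the coefficients `l`. -/
noncomputable def line {k : Type u} [Field k] {N : ℕ} (l : Fin N → k) : MvPolynomial (Fin N) k := ∑ j, C (l j) * X j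

/-- The line through the intersection points of the lines `l i`, `l j` and `l m`, `l n` of the plane. -/
def node {k : Type u} [Field k] {q : ℕ} (l : Fin q → Fin 3 → k) (i j m n : Fin q) : Fin 3 → k :=
  crossProduct (crossProduct (l i) (l j)) (crossProduct (l m) (l n))

private theorem aeval_crd {k : Type u} [Field k] [NumberField k] {N : ℕ} (x : Fin N → AlgebraicClosure k) (f : MvPolynomial (Fin N) k) :
    aeval x f = ((aeval (crd x) f : fld x) : AlgebraicClosure k) :=
  MvPolynomial.aeval_algebraMap_apply (AlgebraicClosure k) (crd x) f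

private theorem val_line {k : Type u} [Field k] [NumberField k] {N : ℕ} (m : Fin (N + 1) → k) (x : Fin (N + 1) → AlgebraicClosure k) :
    aeval (crd x) (line m) = Pool.Agent.Chart.val m x := by
  unfold line Pool.Agent.Chart.val
  rw [map_sum]
  refine Finset.sum_congr rfl fun s _ => ?_
  rw [map_mul, aeval_C, aeval_X]
  rfl

private theorem line_zero {k : Type u} [Field k] [NumberField k] {N : ℕ} (m : Fin (N + 1) → k) (x : Fin (N + 1) → AlgebraicClosure k) :
    aeval x (line m) = 0 ↔ Pool.Agent.Chart.val m x = 0 := by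
  rw [aeval_crd, val_line]
  exact ZeroMemClass.coe_eq_zero

private theorem lam_line {k : Type u} [Field k] [NumberField k] {N : ℕ} (l : Fin (N + 1) → k) (ν : Pl k)
    (x : Fin (N + 1) → AlgebraicClosure k) : lam 1 l (line l) ν x = Real.log (⨆ j, nv ν (l j)) + Pool.Agent.Chart.lam l ν x := by
  unfold lam Pool.Agent.Chart.lam
  rw [val_line]
  simp only [Nat.cast_one, one_mul]
  rfl

private theorem mem_line {k : Type} [Field k] [NumberField k] {r q : ℕ} (l : Fin q → Fin 3 → k) (x : Fin 3 → AlgebraicClosure k) :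
    x ∈ points (⊥ : Ideal (MvPolynomial (Fin 3) ℚ)) r (fun i => line (l i)) ↔
      ((∃ j, x j = 1) ∧ Pool.Agent.Chart.dg x ≤ r ∧ ∀ i, Pool.Agent.Chart.val (l i) x ≠ 0) := by
  constructor
  · rintro ⟨h1, h2, h3, h4⟩
    exact ⟨h1, h3, fun i hi => h4 i ((line_zero _ _).2 hi)⟩
  · rintro ⟨h1, h3, h4⟩
    refine ⟨h1, fun g hg => ?_, h3, fun i hi => h4 i ((line_zero _ _).1 hi)⟩
    rw [Ideal.mem_bot] at hg
    rw [hg, map_zero]

/-- Let `D = ∑ {g i = 0}`, `h(D) = ∑ h(g i)`.

(1) Let `X` be a geometrically integral variety of dimension `n` over `k₀`, `d ≥ 1` and `q ≥ r n + 2`. If `n = 2`, let `q ≥ 2 r + 3`, or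
`d ≥ 2`, or let `X` not be a plane; if `n ≠ 2`, let `r d ≥ 2` and `d (q - r n - 1) ≥ r` (which is no condition if `d ≥ r ≥ 2`). There is a
nonzero polynomial `Φ` over `k₀` in the coefficients of `q` forms of degree `d` such that for every number field `k` which contains `k₀`
and all finite `S` there are `δ > 0` and `C` with `∑_{ν ∈ S} λ_D(x,ν) ≤ (q d - δ) h(x) + C (1 + h(D))` for all forms `g i` of degree `d`
over `k` with `Φ(g) ≠ 0` and all points `x` of `X` outside `D` of degree at most `r` over `k`.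

(2) Let `X` be the plane, `d = 1`, `r ≥ 1`. If `q = 2 r + 2`, there is a nonzero polynomial `Φ` over `ℚ` in the coefficients of `q`
linear forms such that for every number field `k` and all finite `S`: there are `δ > 0` and `C` such that the inequality of (1) is true
for all `l i` over `k` with `Φ(l) ≠ 0` and all points of degree at most `r` outside `D` and outside the lines through the intersection
points of `l i`, `l j` and `l m`, `l n`, `i, j, m, n` different; if `S` contains the archimedean places and the places above `2`,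
for all `l i` with `Φ(l) ≠ 0` every one of these lines contains, for some `C`, infinitely many points of degree at most `r` outside
`D` with `∑_{ν ∈ S} λ_D(x,ν) ≥ q h(x) - C`. If `q ≤ 2 r + 1`, for every number field `k`, all finite `S` which contain the archimedean
places and the places above `2`, all lines `l i` over `k` and all forms `Q ≠ 0` over `k` there are, for some `C`, infinitely many points
of degree at most `r` outside `D` with `∑_{ν ∈ S} λ_D(x,ν) ≥ q h(x) - C` and `Q(x) ≠ 0`: the number `2 r + 2` is best possible. -/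
theorem result (r q : ℕ) :
    (∀ (k₀ : Type u) [Field k₀] [NumberField k₀] (N n d : ℕ) (I : Ideal (MvPolynomial (Fin (N + 1)) k₀)), Variety n I →
      0 < d → r * n + 2 ≤ q → (n = 2 → 2 * r + 3 ≤ q ∨ 2 ≤ d ∨ ¬ Plane I) →
      (n ≠ 2 → 2 ≤ r * d ∧ d * (r * n + 1) + r ≤ d * q) →
      ∃ Φ : MvPolynomial (Fin q × Sym (Fin (N + 1)) d) k₀, Φ ≠ 0 ∧
        ∀ (k : Type u) [Field k] [NumberField k] [Algebra k₀ k] (S : Finset (Pl k)), ∃ δ C : ℝ, 0 < δ ∧
          ∀ g : Fin q → Sym (Fin (N + 1)) d → k, aeval (fun p : Fin q × Sym (Fin (N + 1)) d => g p.1 p.2) Φ ≠ 0 →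
            ∀ x ∈ points I r (fun i => form (g i)), ∑ ν ∈ S, ∑ i, lam d (g i) (form (g i)) ν x ≤
              (q * d - δ) * hgt x + C * (1 + ∑ i, Height.logHeight (g i))) ∧
    (0 < r →
      (q ≤ 2 * r + 1 → ∀ (k : Type) [Field k] [NumberField k] (S : Finset (Pl k)), (∀ ν, ν ∉ S → nv ν (2 : k) = 1) →
        ∀ l : Fin q → Fin 3 → k, (∀ i, l i ≠ 0) → ∀ (e : ℕ) (Q : MvPolynomial (Fin 3) k), Q.IsHomogeneous e → Q ≠ 0 →
          ∃ C : ℝ, {x ∈ points (⊥ : Ideal (MvPolynomial (Fin 3) ℚ)) r (fun i => line (l i)) |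
            q * hgt x - C ≤ ∑ ν ∈ S, ∑ i, lam 1 (l i) (line (l i)) ν x ∧ aeval x Q ≠ 0}.Infinite) ∧
      (q = 2 * r + 2 → ∃ Φ : MvPolynomial (Fin q × Fin 3) ℚ, Φ ≠ 0 ∧
        ∀ (k : Type) [Field k] [NumberField k] (S : Finset (Pl k)),
          (∃ δ C : ℝ, 0 < δ ∧ ∀ l : Fin q → Fin 3 → k, aeval (fun p : Fin q × Fin 3 => l p.1 p.2) Φ ≠ 0 →
            ∀ x ∈ points (⊥ : Ideal (MvPolynomial (Fin 3) ℚ)) r (fun i => line (l i)), (∀ i j m n : Fin q, i ≠ j → m ≠ n →
              i ≠ m → i ≠ n → j ≠ m → j ≠ n → aeval x (line (node l i j m n)) ≠ 0) →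
              ∑ ν ∈ S, ∑ i, lam 1 (l i) (line (l i)) ν x ≤ (q - δ) * hgt x + C * (1 + ∑ i, Height.logHeight (l i))) ∧
          ((∀ ν, ν ∉ S → nv ν (2 : k) = 1) → ∀ l : Fin q → Fin 3 → k, aeval (fun p : Fin q × Fin 3 => l p.1 p.2) Φ ≠ 0 →
            ∀ i j m n : Fin q, i ≠ j → m ≠ n → i ≠ m → i ≠ n → j ≠ m → j ≠ n → node l i j m n ≠ 0 ∧
              ∃ C : ℝ, {x ∈ points (⊥ : Ideal (MvPolynomial (Fin 3) ℚ)) r (fun i => line (l i)) |
                q * hgt x - C ≤ ∑ ν ∈ S, ∑ i, lam 1 (l i) (line (l i)) ν x ∧ aeval x (line (node l i j m n)) = 0}.Infinite))) := by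
  have hv : ∀ {k : Type u} [Field k] [NumberField k] {N d : ℕ} (g : Sym (Fin (N + 1)) d → k) (x : Fin (N + 1) → AlgebraicClosure k),
      aeval (crd x) (form g) = Pool.Agent.TRI.valS g x := by
    intro k _ _ N d g x
    unfold form Pool.Agent.TRI.valS
    rw [map_sum]
    refine Finset.sum_congr rfl fun s _ => ?_
    rw [map_mul, aeval_C, map_multiset_prod, Multiset.map_map]
    congr 3
    funext a
    exact aeval_X _ _
  refine ⟨?_, ?_⟩
  · intro k₀ _ _ N n d I hI hd hq hs hg'
    by_cases hn : n = 2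
    swap
    · obtain ⟨h1, h2⟩ := hg' hn
      have := hI.prime
      obtain ⟨Φ, hΦ, δ, hδ, hfin⟩ := Pool.Agent.UD.final (n := n) h1 h2 (Pool.Agent.GS.hom I)
        (Pool.Agent.GS.homog_hom I) (Pool.Agent.GS.dim_le_hom I hI.hom hI.dim)
      refine ⟨Φ, hΦ, fun k _ _ _ S => ?_⟩
      obtain ⟨C, hin⟩ := hfin k S
      refine ⟨δ, C, hδ, ?_⟩
      rintro g hg x ⟨h3, h4, h5, h6⟩
      refine le_trans (le_of_eq ?_) (hin g hg x h3 (fun f hf => h4 f hf.1) h5 fun i hi => h6 i ?_)
      · refine Finset.sum_congr rfl fun ν _ => Finset.sum_congr rfl fun i _ => ?_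
        unfold lam
        rw [hv]
        rfl
      · rw [aeval_crd, hv]
        exact ZeroMemClass.coe_eq_zero.2 hi
    subst hn
    have h := hs rfl
    have hX : Pool.Agent.TRI.Surf I := ⟨hI.hom, hI.prime, by rw [hI.dim]; norm_num, hI.geo⟩
    have hq : 2 * r + 2 ≤ q := by omega
    have h' : 2 * r + 3 ≤ q ∨ 2 ≤ d ∨ ¬ Pool.Agent.TRI.Plane I := by
      rcases h with h | h | h
      · exact Or.inl h
      · exact Or.inr (Or.inl h)
      · refine Or.inr (Or.inr fun h1 => h ?_)
        unfold Plane
        rw [Pool.Agent.TRI.finrank_lin]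
        exact h1
    obtain ⟨Φ, hΦ, hfin⟩ := Pool.Agent.TRI.out_surf_s (r := r) (d := d) hd hq hX h'
    refine ⟨Φ, hΦ, fun k _ _ _ S => ?_⟩
    obtain ⟨δ, C, hδ, hin⟩ := hfin k S
    refine ⟨δ, C, hδ, ?_⟩
    rintro g hg x ⟨h1, h2, h3, h4⟩
    refine le_trans (le_of_eq ?_) (hin g hg x h1 h2 h3 fun i hi => h4 i ?_)
    · refine Finset.sum_congr rfl fun ν _ => Finset.sum_congr rfl fun i _ => ?_
      unfold lam Pool.Agent.TRI.lamS
      rw [hv]
      rfl
    · rw [aeval_crd, hv, hi]
      rfl
  · intro hr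
    constructor
    · intro hq k _ _ S hS l hl e Q hQ hQ0
      obtain ⟨C, hC⟩ := Pool.Agent.TRI.low_pn (n := 2) hr (by omega) (by omega) S hS l hl Q hQ hQ0
      refine ⟨C - ∑ ν ∈ S, ∑ i, Real.log (⨆ j, nv ν (l i j)), hC.mono ?_⟩
      rintro x ⟨⟨h2, h3, h4, h5⟩, h6⟩
      refine ⟨(mem_line l x).2 ⟨h2, h3, h4⟩, ?_, h6⟩
      have h7 : ∑ ν ∈ S, ∑ i, lam 1 (l i) (line (l i)) ν x = ∑ ν ∈ S, ∑ i, Real.log (⨆ j, nv ν (l i j)) +
          ∑ ν ∈ S, ∑ i, Pool.Agent.Chart.lam (l i) ν x := by
        simp only [lam_line, Finset.sum_add_distrib]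
      rw [h7]
      have h8 : q * hgt x - C ≤ ∑ ν ∈ S, ∑ i, Pool.Agent.Chart.lam (l i) ν x := h5
      linarith
    intro hq'
    obtain ⟨Φ, hΦ, hout⟩ := Pool.Agent.TRI.out_plane_s (q := q) hr hq'
    refine ⟨Φ, hΦ, fun k _ _ S => ?_⟩
    obtain ⟨⟨δ, C, hδ, ha⟩, hb⟩ := hout k S
    have hn : ∀ (l : Fin q → Fin 3 → k) i j m n, node l i j m n = Pool.Agent.TRI.Sp l i j m n := by
      have hc : ∀ u v : Fin 3 → k, crossProduct u v = Pool.Agent.TRI.cr u v := by
        intro u v
        rw [cross_apply]
        rfl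
      intro l i j m n
      unfold node Pool.Agent.TRI.Sp
      rw [hc, hc, hc]
    constructor
    · refine ⟨δ, C, hδ, fun l hl x hx h2 => ?_⟩
      obtain ⟨h1, h3, h4⟩ := (mem_line l x).1 hx
      refine le_trans (le_of_eq ?_) (ha l hl x h1 h3 h4 fun i j m n a1 a2 a3 a4 a5 a6 h5 => h2 i j m n a1 a2 a3 a4 a5 a6 ?_)
      · refine Finset.sum_congr rfl fun ν _ => Finset.sum_congr rfl fun i _ => ?_
        rw [lam_line]
        rfl
      · rw [hn, line_zero]
        exact h5
    · intro hS l hl i j m n a1 a2 a3 a4 a5 a6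
      obtain ⟨h1, C', hC⟩ := hb hS l hl i j m n a1 a2 a3 a4 a5 a6
      refine ⟨by rw [hn]; exact h1, C' - ∑ ν ∈ S, ∑ i, Real.log (⨆ j, nv ν (l i j)), hC.mono ?_⟩
      rintro x ⟨⟨h2, h3, h4, h5⟩, h6⟩
      refine ⟨(mem_line l x).2 ⟨h2, h3, h4⟩, ?_, ?_⟩
      · have h7 : ∑ ν ∈ S, ∑ i, lam 1 (l i) (line (l i)) ν x = ∑ ν ∈ S, ∑ i, Real.log (⨆ j, nv ν (l i j)) +
            ∑ ν ∈ S, ∑ i, Pool.Agent.Chart.lam (l i) ν x := by
          simp only [lam_line, Finset.sum_add_distrib]
        rw [h7]
        have h8 : q * hgt x - C' ≤ ∑ ν ∈ S, ∑ i, Pool.Agent.Chart.lam (l i) ν x := h5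
        linarith
      · rw [hn, line_zero]
        exact h6

end Pool.Agent.Results.MP_71c16a_nt.SectionsThreshold
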